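import Mathlib

/-!
# The inversion generating function of `EN_{s,3}(2143)` (MP_071fcf, Q1)

Labels are `0`-based: the element `(j, m)` with `j < s`, `m < t` has the label `j * t + m`.
-/

namespace Pool.Agent.Results.MP_071fcf_co.ThreeColumns

open Finset

/-- The order of `EN_{s,t}` in terms of the labels `a = j t + m`, `b = j' t + m'`:
`(j, m) ⪯ (j', m')` iff `j ≥ j'` and `m ≤ m'`. -/
def Prec (s t : ℕ) (a b : Fin (s * t)) : Prop := b.1 / t ≤ a.1 / t ∧ a.1 % t ≤ b.1 % t

/-- The permutation `π` lists the elements of `EN_{s,t}` in the order of a linear extension. -/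
def IsLinExt (s t : ℕ) (π : Equiv.Perm (Fin (s * t))) : Prop :=
  ∀ i i', Prec s t (π i) (π i') → i ≤ i'

/-- The permutation avoids the pattern `2143`. -/
def Avoids {n : ℕ} (π : Equiv.Perm (Fin n)) : Prop :=
  ¬ ∃ i₁ i₂ i₃ i₄, i₁ < i₂ ∧ i₂ < i₃ ∧ i₃ < i₄ ∧ π i₂ < π i₁ ∧ π i₁ < π i₄ ∧ π i₄ < π i₃

open Classical in
/-- The linear extensions of `EN_{s,t}` which avoid `2143`. -/
noncomputable def EN (s t : ℕ) : Finset (Equiv.Perm (Fin (s * t))) :=
  univ.filter (fun π => IsLinExt s t π ∧ Avoids π)

/-- The number of inversions. -/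
def inv {n : ℕ} (π : Equiv.Perm (Fin n)) : ℕ :=
  (univ.filter (fun z : Fin n × Fin n => z.1 < z.2 ∧ π z.2 < π z.1)).card

open Polynomial in
/-- The polynomials `F_s`. -/
noncomputable def F : ℕ → ℤ[X]
  | 0 => 1
  | 1 => 1
  | (s + 2) => (1 + X + 2 * X ^ 2) * F (s + 1) + X ^ 3 * F s

/-! ### Elements and positions -/

/-- The elements of the poset. -/
abbrev El (s : ℕ) := Fin s × Fin 3

/-- The label of an element. -/
def e {s : ℕ} : El s ≃ Fin (s * 3) := finProdFinEquiv

lemma e_val {s : ℕ} (x : El s) : (e x).1 = x.2.1 + 3 * x.1.1 := rfl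

lemma e_lt {s : ℕ} (x y : El s) : e x < e y ↔ x.1 < y.1 ∨ (x.1 = y.1 ∧ x.2 < y.2) := by
  rw [Fin.lt_def, e_val, e_val, Fin.lt_def, Fin.lt_def, Fin.ext_iff]
  have := x.2.2
  have := y.2.2
  omega

lemma prec_e {s : ℕ} (x y : El s) : Prec s 3 (e x) (e y) ↔ y.1 ≤ x.1 ∧ x.2 ≤ y.2 := by
  unfold Prec
  rw [e_val, e_val, Fin.le_def, Fin.le_def]
  have := x.2.2
  have := y.2.2
  omega

/-- The position of an element. -/
def pos {s : ℕ} (π : Equiv.Perm (Fin (s * 3))) (x : El s) : Fin (s * 3) := π.symm (e x)

lemma pos_inj {s : ℕ} (π : Equiv.Perm (Fin (s * 3))) (x y : El s) :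
    pos π x = pos π y ↔ x = y := by
  simp [pos]

lemma exists_pos {s : ℕ} (π : Equiv.Perm (Fin (s * 3))) (i : Fin (s * 3)) :
    ∃ x, pos π x = i ∧ π i = e x := by
  refine ⟨e.symm (π i), ?_, ?_⟩ <;> simp [pos]

/-- The order is a linear extension and the teeth at distance at least two are reversed. -/
def Good {s : ℕ} (π : Equiv.Perm (Fin (s * 3))) : Prop :=
  (∀ x y : El s, y.1 ≤ x.1 → x.2 ≤ y.2 → pos π x ≤ pos π y) ∧
    ∀ x y : El s, x.1.1 + 2 ≤ y.1.1 → pos π y < pos π x

lemma linExt_iff {s : ℕ} (π : Equiv.Perm (Fin (s * 3))) : IsLinExt s 3 π ↔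
    ∀ x y : El s, y.1 ≤ x.1 → x.2 ≤ y.2 → pos π x ≤ pos π y := by
  constructor
  · intro h x y h1 h2
    apply h
    have e1 : π (pos π x) = e x := by simp [pos]
    have e2 : π (pos π y) = e y := by simp [pos]
    rw [e1, e2, prec_e]
    exact ⟨h1, h2⟩
  · intro h i i' hp
    obtain ⟨x, hx, hx'⟩ := exists_pos π i
    obtain ⟨y, hy, hy'⟩ := exists_pos π i'
    rw [hx', hy', prec_e] at hp
    rw [← hx, ← hy]
    exact h x y hp.1 hp.2

/-- The key observation: a linear extension avoids `2143` iff teeth at distance at least two are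
completely reversed. -/
lemma mem_EN {s : ℕ} (π : Equiv.Perm (Fin (s * 3))) : π ∈ EN s 3 ↔ Good π := by
  classical
  unfold EN Good
  simp only [mem_filter, mem_univ, true_and, linExt_iff]
  refine and_congr_right (fun hlin => ?_)
  constructor
  · intro hav x y hxy
    by_contra hcon
    rw [not_lt] at hcon
    have hne : pos π x ≠ pos π y := by
      rw [Ne, pos_inj]
      rintro rfl
      omega
    have hlt : pos π x < pos π y := lt_of_le_of_ne hcon hne
    have hy0 : y.2 ≠ 0 := by
      intro h0
      have := hlin y x (by rw [Fin.le_def]; omega) (by rw [h0]; exact Fin.zero_le _)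
      exact absurd hlt (not_lt.2 this)
    have hx2 := x.1.2
    have hy2 := y.1.2
    apply hav
    set a : El s := (⟨x.1.1 + 1, by omega⟩, 0) with ha
    set b : El s := (x.1, 0) with hb
    set d : El s := (⟨y.1.1 - 1, by omega⟩, y.2) with hd
    have hab : pos π a < pos π b := by
      refine lt_of_le_of_ne (hlin a b ?_ ?_) ?_
      · rw [Fin.le_def]; simp [ha, hb]
      · simp [ha, hb]
      · rw [Ne, pos_inj]
        intro h
        have := congrArg (fun z : El s => z.1.1) h
        simp [ha, hb] at this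
    have hbx : pos π b ≤ pos π x := hlin b x (by simp [hb]) (by simp [hb])
    have hyd : pos π y < pos π d := by
      refine lt_of_le_of_ne (hlin y d ?_ ?_) ?_
      · rw [Fin.le_def]; simp [hd]
      · simp [hd]
      · rw [Ne, pos_inj]
        intro h
        have := congrArg (fun z : El s => z.1.1) h
        simp [hd] at this
        omega
    have hv : ∀ z : El s, π (pos π z) = e z := fun z => by simp [pos]
    refine ⟨pos π a, pos π b, pos π y, pos π d, hab, lt_of_le_of_lt hbx hlt, hyd, ?_, ?_, ?_⟩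
    · rw [hv, hv, e_lt]
      left
      rw [Fin.lt_def]
      simp [ha, hb]
    · rw [hv, hv, e_lt, Fin.lt_def, Fin.ext_iff]
      have : (0 : Fin 3) < y.2 := Fin.pos_of_ne_zero hy0
      simp only [ha, hd]
      by_cases h : x.1.1 + 1 = y.1.1 - 1
      · exact Or.inr ⟨h, this⟩
      · left
        omega
    · rw [hv, hv, e_lt]
      left
      rw [Fin.lt_def]
      simp only [hd]
      omega
  · rintro hfar ⟨i₁, i₂, i₃, i₄, h12, h23, h34, h21, h14, h43⟩
    obtain ⟨p, hp, hp'⟩ := exists_pos π i₁
    obtain ⟨q, hq, hq'⟩ := exists_pos π i₂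
    obtain ⟨r, hr, hr'⟩ := exists_pos π i₃
    obtain ⟨t, ht, ht'⟩ := exists_pos π i₄
    rw [hp', hq', e_lt] at h21
    rw [hp', ht', e_lt] at h14
    rw [ht', hr', e_lt] at h43
    have hqp : q.1 < p.1 := by
      rcases h21 with h | ⟨h, h'⟩
      · exact h
      · exfalso
        have := hlin q p (le_of_eq h.symm) h'.le
        rw [hp, hq] at this
        exact absurd h12 (not_lt.2 this)
    have htr : t.1 < r.1 := by
      rcases h43 with h | ⟨h, h'⟩
      · exact h
      · exfalso
        have := hlin t r (le_of_eq h.symm) h'.le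
        rw [ht, hr] at this
        exact absurd h34 (not_lt.2 this)
    have hpt : p.1 ≤ t.1 := by
      rcases h14 with h | ⟨h, -⟩
      · exact h.le
      · exact h.le
    have := hfar q r (by
      rw [Fin.lt_def] at hqp htr
      rw [Fin.le_def] at hpt
      omega)
    rw [hq, hr] at this
    exact absurd h23 (not_lt.2 this.le)

/-! ### Letters and words -/

/-- For two consecutive teeth `j`, `j + 1`, the five possible letters tell which elements
`(j, m)` come before which elements `(j + 1, m')`. -/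
def bf (c : Fin 5) (m m' : Fin 3) : Bool :=
  (m == 0 && m' == 1 && (c == 2 || c == 4)) || (m == 0 && m' == 2 && c != 0) ||
    (m == 1 && m' == 2 && (c == 3 || c == 4))

/-- The number of elements of tooth `j + 1` after `(j, m)`. -/
def U (c : Fin 5) (m : Fin 3) : ℕ := (if bf c m 1 then 1 else 0) + (if bf c m 2 then 1 else 0)

/-- The number of elements of tooth `j` before `(j + 1, m')`. -/
def V (c : Fin 5) (m' : Fin 3) : ℕ := (if bf c 0 m' then 1 else 0) + (if bf c 1 m' then 1 else 0)

/-- The weight of a letter. -/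
def wt (c : Fin 5) : ℕ := (if bf c 0 1 then 1 else 0) + (if bf c 0 2 then 1 else 0) +
  (if bf c 1 2 then 1 else 0)

/-- Consecutive letters. -/
def ok (a b : Fin 5) : Bool := !(bf a 0 1 && bf b 1 2)

lemma bf_inj : ∀ c c' : Fin 5, (∀ m m', bf c m m' = bf c' m m') → c = c' := by decide

lemma bf_lt : ∀ (c : Fin 5) (m m' : Fin 3), bf c m m' = true → m < m' := by decide

lemma num_same : ∀ (a b : Fin 5) (m m' : Fin 3), ok a b = true →
    (m.1 + V a m + U b m' < m'.1 + V a m' + U b m ↔ m < m') := by decide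

lemma num_next : ∀ (a b c : Fin 5) (m m' : Fin 3), ok a b = true → ok b c = true →
    (3 + m.1 + V a m + U c m' < m'.1 + V b m' + U b m ↔ bf b m m' = true) := by decide

lemma num_next' : ∀ (a b c : Fin 5) (m m' : Fin 3), ok a b = true → ok b c = true →
    (m'.1 + V b m' + U b m < 3 + m.1 + V a m + U c m' ↔ bf b m m' = false) := by decide

lemma num_far : ∀ (b b' : Fin 5) (m m' : Fin 3), ok b b' = true →
    m'.1 + V b' m' + U b m < 6 + m.1 := by decide

lemma V_le : ∀ (c : Fin 5) (m : Fin 3), m.1 + V c m ≤ 4 := by decide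

lemma U_le : ∀ (c : Fin 5) (m : Fin 3), U c m ≤ 2 := by decide

lemma U_zero : ∀ (m : Fin 3), U 0 m = 0 := by decide

lemma V_zero : ∀ (m : Fin 3), V 0 m = 0 := by decide

/-- The letter at the place `j`. -/
def ext {k : ℕ} (w : Fin k → Fin 5) (j : ℕ) : Fin 5 := if h : j < k then w ⟨j, h⟩ else 0

/-- The letter before the place `j`. -/
def prv {k : ℕ} (a : Fin 5) (w : Fin k → Fin 5) : ℕ → Fin 5
  | 0 => a
  | (j + 1) => ext w j

/-- The good words. -/
def Gd {k : ℕ} (a : Fin 5) (w : Fin k → Fin 5) : Prop :=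
  ∀ j < k, ok (prv a w j) (ext w j) = true

instance {k : ℕ} (a : Fin 5) (w : Fin k → Fin 5) : Decidable (Gd a w) := by
  unfold Gd; infer_instance

lemma gd_all {k : ℕ} {a : Fin 5} {w : Fin k → Fin 5} (h : Gd a w) (j : ℕ) :
    ok (prv a w j) (ext w j) = true := by
  by_cases hj : j < k
  · exact h j hj
  · have : ext w j = 0 := by simp [ext, hj]
    rw [this]
    generalize prv a w j = b
    revert b
    decide

/-- The order of the elements given by a word. -/
def R {k : ℕ} (w : Fin k → Fin 5) (x y : El (k + 1)) : Prop :=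
  (x.1.1 = y.1.1 ∧ x.2 < y.2) ∨ (y.1.1 = x.1.1 + 1 ∧ bf (ext w x.1.1) x.2 y.2 = true) ∨
    (x.1.1 = y.1.1 + 1 ∧ bf (ext w y.1.1) y.2 x.2 = false) ∨ y.1.1 + 2 ≤ x.1.1

/-- The position of an element in the order given by a word. -/
def P {k : ℕ} (w : Fin k → Fin 5) (x : El (k + 1)) : ℕ :=
  3 * (k - x.1.1) + x.2.1 + V (prv 0 w x.1.1) x.2 - U (ext w x.1.1) x.2

lemma P_add {k : ℕ} (w : Fin k → Fin 5) (x : El (k + 1)) :
    P w x + U (ext w x.1.1) x.2 = 3 * (k - x.1.1) + x.2.1 + V (prv 0 w x.1.1) x.2 := by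
  unfold P
  have h1 := U_le (ext w x.1.1) x.2
  have h2 := x.1.2
  by_cases h : x.1.1 < k
  · omega
  · have : ext w x.1.1 = 0 := by simp [ext, h]
    rw [this, U_zero]
    omega

lemma P_lt {k : ℕ} (w : Fin k → Fin 5) (x : El (k + 1)) : P w x < (k + 1) * 3 := by
  have h1 := P_add w x
  have h2 := V_le (prv 0 w x.1.1) x.2
  have h3 := x.1.2
  have h4 := x.2.2
  by_cases h : x.1.1 = 0
  · have h5 : prv 0 w x.1.1 = 0 := by rw [h]; rfl
    rw [h5, V_zero] at h1
    omega
  · omega

lemma P_lt_iff {k : ℕ} {w : Fin k → Fin 5} (hw : Gd 0 w) (x y : El (k + 1)) :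
    P w x < P w y ↔ R w x y := by
  obtain ⟨⟨j, hj⟩, m⟩ := x
  obtain ⟨⟨j', hj'⟩, m'⟩ := y
  have hx := P_add w (⟨j, hj⟩, m)
  have hy := P_add w (⟨j', hj'⟩, m')
  have hR : R w (⟨j, hj⟩, m) (⟨j', hj'⟩, m') ↔ ((j = j' ∧ m < m') ∨
      (j' = j + 1 ∧ bf (ext w j) m m' = true) ∨ (j = j' + 1 ∧ bf (ext w j') m' m = false) ∨
      j' + 2 ≤ j) := Iff.rfl
  rw [hR]
  simp only at hx hy
  generalize P w (⟨j, hj⟩, m) = A at hx ⊢
  generalize P w (⟨j', hj'⟩, m') = B at hy ⊢
  rcases lt_trichotomy j j' with h | h | h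
  · rcases Nat.lt_or_ge (j + 1) j' with h' | h'
    · -- `j' ≥ j + 2`: `y` is before `x`
      have hfalse : ¬ ((j = j' ∧ m < m') ∨
          (j' = j + 1 ∧ bf (ext w j) m m' = true) ∨ (j = j' + 1 ∧ bf (ext w j') m' m = false) ∨
          j' + 2 ≤ j) := by
        rintro (h | h | h | h)
        · omega
        · omega
        · omega
        · omega
      refine iff_of_false ?_ hfalse
      have h1 := V_le (prv 0 w j') m'
      have h2 := U_le (ext w j) m
      by_cases h'' : j' = j + 2
      · subst h''
        have h3 := num_far (ext w j) (ext w (j + 1)) m m' (gd_all hw (j + 1))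
        have h4 : prv 0 w (j + 2) = ext w (j + 1) := rfl
        rw [h4] at hy
        omega
      · omega
    · have h'' : j' = j + 1 := by omega
      subst h''
      have h3 := num_next (prv 0 w j) (ext w j) (ext w (j + 1)) m m' (gd_all hw j)
        (gd_all hw (j + 1))
      have h4 : prv 0 w (j + 1) = ext w j := rfl
      rw [h4] at hy
      constructor
      · intro hAB
        right; left
        exact ⟨rfl, h3.1 (by omega)⟩
      · rintro (h | h | h | h)
        · omega
        · have := h3.2 h.2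
          omega
        · omega
        · omega
  · subst h
    have h3 := num_same (prv 0 w j) (ext w j) m m' (gd_all hw j)
    constructor
    · intro hAB
      left
      exact ⟨rfl, h3.1 (by omega)⟩
    · rintro (h | h | h | h)
      · have := h3.2 h.2
        omega
      · omega
      · omega
      · omega
  · rcases Nat.lt_or_ge (j' + 1) j with h' | h'
    · refine iff_of_true ?_ (Or.inr (Or.inr (Or.inr (by omega))))
      have h1 := V_le (prv 0 w j) m
      have h2 := U_le (ext w j') m'
      by_cases h'' : j = j' + 2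
      · subst h''
        have h3 := num_far (ext w j') (ext w (j' + 1)) m' m (gd_all hw (j' + 1))
        have h4 : prv 0 w (j' + 2) = ext w (j' + 1) := rfl
        rw [h4] at hx
        omega
      · omega
    · have h'' : j = j' + 1 := by omega
      subst h''
      have h3 := num_next' (prv 0 w j') (ext w j') (ext w (j' + 1)) m' m (gd_all hw j')
        (gd_all hw (j' + 1))
      have h4 : prv 0 w (j' + 1) = ext w j' := rfl
      rw [h4] at hx
      constructor
      · intro hAB
        right; right; left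
        exact ⟨rfl, h3.1 (by omega)⟩
      · rintro (h | h | h | h)
        · omega
        · omega
        · have := h3.2 h.2
          omega
        · omega

lemma R_total {k : ℕ} (w : Fin k → Fin 5) (x y : El (k + 1)) : R w x y ∨ R w y x ∨ x = y := by
  obtain ⟨⟨j, hj⟩, m⟩ := x
  obtain ⟨⟨j', hj'⟩, m'⟩ := y
  simp only [R, Prod.mk.injEq, Fin.mk.injEq]
  rcases lt_trichotomy j j' with h | h | h
  · rcases Nat.lt_or_ge (j + 1) j' with h' | h'
    · right; left; right; right; right
      omega
    · have h'' : j' = j + 1 := by omega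
      subst h''
      cases hb : bf (ext w j) m m'
      · right; left; right; right; left
        exact ⟨rfl, rfl⟩
      · left; right; left
        exact ⟨rfl, rfl⟩
  · subst h
    rcases lt_trichotomy m m' with h | h | h
    · left; left; exact ⟨rfl, h⟩
    · right; right; exact ⟨rfl, h⟩
    · right; left; left; exact ⟨rfl, h⟩
  · rcases Nat.lt_or_ge (j' + 1) j with h' | h'
    · left; right; right; right
      omega
    · have h'' : j = j' + 1 := by omega
      subst h''
      cases hb : bf (ext w j') m' m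
      · left; right; right; left
        exact ⟨rfl, rfl⟩
      · right; left; right; left
        exact ⟨rfl, rfl⟩

/-- The position function as a bijection. -/
noncomputable def PE {k : ℕ} (w : Fin k → Fin 5) (hw : Gd 0 w) :
    El (k + 1) ≃ Fin ((k + 1) * 3) :=
  Equiv.ofBijective (fun x => ⟨P w x, P_lt w x⟩) (by
    rw [Fintype.bijective_iff_injective_and_card]
    constructor
    · intro x y hxy
      have hxy' : P w x = P w y := congrArg Fin.val hxy
      rcases R_total w x y with h | h | h
      · rw [← P_lt_iff hw] at h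
        omega
      · rw [← P_lt_iff hw] at h
        omega
      · exact h
    · simp)

/-- The permutation of a good word. -/
noncomputable def perm {k : ℕ} (w : Fin k → Fin 5) (hw : Gd 0 w) :
    Equiv.Perm (Fin ((k + 1) * 3)) := (PE w hw).symm.trans e

lemma pos_perm {k : ℕ} (w : Fin k → Fin 5) (hw : Gd 0 w) (x : El (k + 1)) :
    (pos (perm w hw) x).1 = P w x := by
  simp [pos, perm, PE]

lemma pos_perm_lt {k : ℕ} (w : Fin k → Fin 5) (hw : Gd 0 w) (x y : El (k + 1)) :
    pos (perm w hw) x < pos (perm w hw) y ↔ R w x y := by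
  rw [Fin.lt_def, pos_perm, pos_perm, P_lt_iff hw]

lemma good_of_R {k : ℕ} (w : Fin k → Fin 5) (π : Equiv.Perm (Fin ((k + 1) * 3)))
    (h : ∀ x y, pos π x < pos π y ↔ R w x y) : Good π := by
  constructor
  · intro x y h1 h2
    rw [← not_lt, h]
    rintro (h3 | h3 | h3 | h3)
    · exact absurd h3.2 (not_lt.2 h2)
    · rw [Fin.le_def] at h1
      have := bf_lt _ _ _ h3.2
      omega
    · have := h3.2
      rw [Fin.le_def] at h1
      omega
    · rw [Fin.le_def] at h1
      omega
  · intro x y h1
    rw [h]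
    right; right; right
    exact h1

/-- The letter with given comparisons. -/
def letter (p q r : Prop) [Decidable p] [Decidable q] [Decidable r] : Fin 5 :=
  if p then (if r then 4 else 2) else (if r then 3 else (if q then 1 else 0))

/-- The word of a permutation. -/
def word {k : ℕ} (π : Equiv.Perm (Fin ((k + 1) * 3))) (j : Fin k) : Fin 5 :=
  letter (pos π (j.castSucc, 0) < pos π (j.succ, 1)) (pos π (j.castSucc, 0) < pos π (j.succ, 2))
    (pos π (j.castSucc, 1) < pos π (j.succ, 2))

lemma bf_letter (g : Fin 3 → Fin 3 → Prop) [∀ m m', Decidable (g m m')]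
    (h0 : ∀ m m', m' ≤ m → ¬ g m m') (h1 : g 0 1 → g 0 2) (h2 : g 1 2 → g 0 2) (m m' : Fin 3) :
    bf (letter (g 0 1) (g 0 2) (g 1 2)) m m' = true ↔ g m m' := by
  unfold letter
  have h3 := h0 m m'
  by_cases a : g 0 1 <;> by_cases b : g 0 2 <;> by_cases c : g 1 2 <;>
    simp only [a, b, c, if_true, if_false] <;> revert h3 <;> revert a b c h1 h2 <;>
    fin_cases m <;> fin_cases m' <;> simp +decide <;> tauto

lemma bf_word {k : ℕ} (π : Equiv.Perm (Fin ((k + 1) * 3))) (hg : Good π) (j : Fin k)
    (m m' : Fin 3) :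
    bf (word π j) m m' = true ↔ pos π (j.castSucc, m) < pos π (j.succ, m') := by
  have := bf_letter (fun m m' => pos π (j.castSucc, m) < pos π (j.succ, m')) ?_ ?_ ?_ m m'
  · exact this
  · intro m m' h
    rw [not_lt]
    exact hg.1 _ _ (Fin.castSucc_lt_succ).le h
  · intro h
    exact lt_of_lt_of_le h (hg.1 _ _ le_rfl (by simp))
  · intro h
    exact lt_of_le_of_lt (hg.1 (j.castSucc, 0) (j.castSucc, 1) le_rfl (by simp)) h

lemma ext_word {k : ℕ} (w : Fin k → Fin 5) (j : Fin k) : ext w j.1 = w j := by
  simp [ext]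

lemma R_word {k : ℕ} (π : Equiv.Perm (Fin ((k + 1) * 3))) (hg : Good π) (x y : El (k + 1)) :
    pos π x < pos π y ↔ R (word π) x y := by
  obtain ⟨⟨j, hj⟩, m⟩ := x
  obtain ⟨⟨j', hj'⟩, m'⟩ := y
  have hR : R (word π) (⟨j, hj⟩, m) (⟨j', hj'⟩, m') ↔ ((j = j' ∧ m < m') ∨
      (j' = j + 1 ∧ bf (ext (word π) j) m m' = true) ∨
      (j = j' + 1 ∧ bf (ext (word π) j') m' m = false) ∨ j' + 2 ≤ j) := Iff.rfl
  rw [hR]
  rcases lt_trichotomy j j' with h | h | h
  · rcases Nat.lt_or_ge (j + 1) j' with h' | h'
    · refine iff_of_false ?_ ?_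
      · exact not_lt.2 (hg.2 (⟨j, hj⟩, m) (⟨j', hj'⟩, m') h').le
      · rintro (h | h | h | h) <;> omega
    · have h'' : j' = j + 1 := by omega
      subst h''
      have h1 := bf_word π hg ⟨j, by omega⟩ m m'
      have h2 : ext (word π) j = word π ⟨j, by omega⟩ := ext_word (word π) ⟨j, by omega⟩
      rw [h2, h1]
      constructor
      · intro h
        exact Or.inr (Or.inl ⟨rfl, h⟩)
      · rintro (h | h | h | h)
        · omega
        · exact h.2
        · omega
        · omega
  · subst h
    constructor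
    · intro h
      left
      refine ⟨rfl, ?_⟩
      by_contra hc
      have := hg.1 (⟨j, hj'⟩, m') (⟨j, hj⟩, m) le_rfl (not_lt.1 hc)
      exact absurd h (not_lt.2 this)
    · rintro (h | h | h | h)
      · refine lt_of_le_of_ne (hg.1 _ _ le_rfl h.2.le) ?_
        rw [Ne, pos_inj]
        intro he
        have := congrArg Prod.snd he
        exact absurd this h.2.ne
      · omega
      · omega
      · omega
  · rcases Nat.lt_or_ge (j' + 1) j with h' | h'
    · refine iff_of_true ?_ (Or.inr (Or.inr (Or.inr (by omega))))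
      exact hg.2 (⟨j', hj'⟩, m') (⟨j, hj⟩, m) h'
    · have h'' : j = j' + 1 := by omega
      subst h''
      have h1 := bf_word π hg ⟨j', by omega⟩ m' m
      have h2 : ext (word π) j' = word π ⟨j', by omega⟩ := ext_word (word π) ⟨j', by omega⟩
      rw [h2, ← Bool.not_eq_true, h1, not_lt]
      constructor
      · intro h
        exact Or.inr (Or.inr (Or.inl ⟨rfl, h.le⟩))
      · rintro (h | h | h | h)
        · omega
        · omega
        · refine lt_of_le_of_ne h.2 ?_
          rw [Ne, pos_inj]
          intro he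
          have := congrArg (fun z : El (k + 1) => z.1.1) he
          simp at this
        · omega

lemma gd_word {k : ℕ} (π : Equiv.Perm (Fin ((k + 1) * 3))) (hg : Good π) : Gd 0 (word π) := by
  intro j hj
  cases j with
  | zero =>
    have : prv 0 (word π) 0 = 0 := rfl
    rw [this]
    generalize ext (word π) 0 = b
    revert b
    decide
  | succ j =>
    have h0 : prv 0 (word π) (j + 1) = ext (word π) j := rfl
    rw [h0]
    unfold ok
    rw [Bool.not_eq_true', Bool.and_eq_false_iff]
    by_contra hcon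
    push Not at hcon
    rw [Ne, Bool.not_eq_false, Ne, Bool.not_eq_false] at hcon
    have h1 : pos π ((⟨j, by omega⟩ : Fin (k + 1)), (0 : Fin 3)) <
        pos π ((⟨j + 1, by omega⟩ : Fin (k + 1)), (1 : Fin 3)) := by
      rw [R_word π hg]
      exact Or.inr (Or.inl ⟨rfl, hcon.1⟩)
    have h2 : pos π ((⟨j + 1, by omega⟩ : Fin (k + 1)), (1 : Fin 3)) <
        pos π ((⟨j + 2, by omega⟩ : Fin (k + 1)), (2 : Fin 3)) := by
      rw [R_word π hg]
      exact Or.inr (Or.inl ⟨rfl, hcon.2⟩)
    have h3 := hg.2 ((⟨j, by omega⟩ : Fin (k + 1)), (0 : Fin 3))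
      ((⟨j + 2, by omega⟩ : Fin (k + 1)), (2 : Fin 3)) le_rfl
    exact absurd h3 (not_lt.2 (h1.trans h2).le)

lemma perm_ext {n : ℕ} (π π' : Equiv.Perm (Fin (n * 3)))
    (h : ∀ x y : El n, pos π x < pos π y ↔ pos π' x < pos π' y) : π = π' := by
  have hcard : ∀ (ρ : Equiv.Perm (Fin (n * 3))) (x : El n),
      (univ.filter (fun y : El n => pos ρ y < pos ρ x)).card = (pos ρ x).1 := by
    intro ρ x
    have h1 : (univ.filter (fun y : El n => pos ρ y < pos ρ x)).card =
        (Finset.Iio (pos ρ x)).card := by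
      refine Finset.card_bij (fun y _ => pos ρ y) ?_ ?_ ?_
      · intro y hy
        simpa using hy
      · intro y _ y' _ hyy
        exact (pos_inj ρ y y').1 hyy
      · intro i hi
        obtain ⟨y, hy, -⟩ := exists_pos ρ i
        refine ⟨y, ?_, hy⟩
        rw [mem_filter, hy]
        exact ⟨mem_univ _, by simpa using hi⟩
    rw [h1, Fin.card_Iio]
  have hpos : ∀ x, pos π x = pos π' x := by
    intro x
    apply Fin.ext
    rw [← hcard π x, ← hcard π' x]
    congr 1
    ext y
    simp [h y x]
  have hsymm : π.symm = π'.symm := by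
    ext i
    have := hpos (e.symm i)
    simp only [pos, Equiv.apply_symm_apply] at this
    rw [this]
  have := congrArg Equiv.symm hsymm
  simpa using this

lemma word_perm {k : ℕ} (w : Fin k → Fin 5) (hw : Gd 0 w) : word (perm w hw) = w := by
  have hg : Good (perm w hw) := good_of_R w _ (pos_perm_lt w hw)
  funext j
  apply bf_inj
  intro m m'
  rw [Bool.eq_iff_iff, bf_word _ hg, pos_perm_lt]
  constructor
  · rintro (h | h | h | h)
    · simp at h
    · have := h.2
      simpa [ext_word] using this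
    · have := h.1
      simp at this
      omega
    · simp at h
      omega
  · intro h
    refine Or.inr (Or.inl ⟨by simp, ?_⟩)
    simpa [ext_word] using h

/-! ### The number of inversions -/

lemma inv_eq {k : ℕ} (π : Equiv.Perm (Fin ((k + 1) * 3))) (hg : Good π) :
    inv π + ∑ j, wt (word π j) = 9 * (k + 1).choose 2 := by
  have h1 : inv π = (univ.filter (fun z : El (k + 1) × El (k + 1) =>
      e z.1 < e z.2 ∧ pos π z.2 < pos π z.1)).card := by
    unfold inv
    symm
    refine Finset.card_bij (fun z _ => (pos π z.2, pos π z.1)) ?_ ?_ ?_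
    · intro z hz
      rw [mem_filter] at hz ⊢
      refine ⟨mem_univ _, hz.2.2, ?_⟩
      simpa [pos] using hz.2.1
    · intro z _ z' _ hzz
      rw [Prod.mk.injEq, pos_inj, pos_inj] at hzz
      exact Prod.ext hzz.2 hzz.1
    · intro z hz
      rw [mem_filter] at hz
      obtain ⟨x, hx, hx'⟩ := exists_pos π z.1
      obtain ⟨y, hy, hy'⟩ := exists_pos π z.2
      refine ⟨(y, x), ?_, ?_⟩
      · rw [mem_filter]
        refine ⟨mem_univ _, ?_, ?_⟩
        · have := hz.2.2
          rw [hx', hy'] at this
          exact this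
        · simp only [hx, hy]
          exact hz.2.1
      · simp only [hx, hy]
  have h2 : inv π = ∑ j : Fin (k + 1), ∑ j' : Fin (k + 1), ∑ m : Fin 3, ∑ m' : Fin 3,
      if (e (j, m) < e (j', m') ∧ pos π (j', m') < pos π (j, m)) then 1 else 0 := by
    rw [h1, Finset.card_filter]
    rw [Fintype.sum_prod_type, Fintype.sum_prod_type]
    refine Finset.sum_congr rfl (fun j _ => ?_)
    have : ∀ m : Fin 3, (∑ y : El (k + 1),
        if (e (j, m) < e y ∧ pos π y < pos π (j, m)) then 1 else 0) =
        ∑ j' : Fin (k + 1), ∑ m' : Fin 3,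
        if (e (j, m) < e (j', m') ∧ pos π (j', m') < pos π (j, m)) then 1 else 0 := by
      intro m
      rw [Fintype.sum_prod_type]
    rw [Finset.sum_congr rfl (fun m _ => this m), Finset.sum_comm]
  have h3 : ∀ j j' : Fin (k + 1), (∑ m : Fin 3, ∑ m' : Fin 3,
      if (e (j, m) < e (j', m') ∧ pos π (j', m') < pos π (j, m)) then 1 else 0) +
      (if j'.1 = j.1 + 1 then wt (ext (word π) j.1) else 0) = if j < j' then 9 else 0 := by
    intro j j'
    by_cases h : j < j'
    · rw [if_pos h]
      have h4 : ∀ m m' : Fin 3, ((e (j, m) < e (j', m') ∧ pos π (j', m') < pos π (j, m)) ↔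
          (j'.1 = j.1 + 1 → bf (ext (word π) j.1) m m' = false)) := by
        intro m m'
        rw [e_lt, R_word π hg]
        rw [Fin.lt_def] at h
        constructor
        · rintro ⟨-, h5 | h5 | h5 | h5⟩ h6
          · have := h5.1; simp at this; omega
          · have := h5.1; simp at this; omega
          · exact h5.2
          · simp at h5; omega
        · intro h5
          refine ⟨Or.inl h, ?_⟩
          by_cases h6 : j'.1 = j.1 + 1
          · exact Or.inr (Or.inr (Or.inl ⟨h6, h5 h6⟩))
          · refine Or.inr (Or.inr (Or.inr ?_))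
            simp only
            omega
      simp only [h4]
      by_cases h6 : j'.1 = j.1 + 1
      · simp only [h6, true_implies, if_true]
        generalize ext (word π) j.1 = c
        revert c
        decide
      · simp [h6]
    · rw [if_neg h]
      have h4 : ∀ m m' : Fin 3, ¬ (e (j, m) < e (j', m') ∧ pos π (j', m') < pos π (j, m)) := by
        rintro m m' ⟨h5, h6⟩
        rw [e_lt] at h5
        rcases h5 with h5 | ⟨h5, h7⟩
        · exact h h5
        · have := hg.1 (j, m) (j', m') (le_of_eq h5.symm) h7.le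
          exact absurd h6 (not_lt.2 this)
      have h5 : ¬ j'.1 = j.1 + 1 := by
        rw [Fin.lt_def] at h
        omega
      simp [h4, h5]
  have h4 : ∑ j, wt (word π j) = ∑ j : Fin (k + 1), ∑ j' : Fin (k + 1),
      (if j'.1 = j.1 + 1 then wt (ext (word π) j.1) else 0) := by
    rw [Fin.sum_univ_castSucc]
    have h5 : (∑ j' : Fin (k + 1), (if j'.1 = (Fin.last k).1 + 1 then
        wt (ext (word π) (Fin.last k).1) else 0)) = 0 := by
      refine Finset.sum_eq_zero (fun j' _ => ?_)
      rw [if_neg]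
      have := j'.2
      simp
      omega
    rw [h5, add_zero]
    refine Finset.sum_congr rfl (fun j _ => ?_)
    rw [Finset.sum_eq_single j.succ]
    · simp [ext_word]
    · intro b _ hb
      rw [if_neg]
      intro h
      apply hb
      apply Fin.ext
      simpa using h
    · intro h
      exact absurd (mem_univ _) h
  rw [h2, h4, ← Finset.sum_add_distrib]
  simp only [← Finset.sum_add_distrib, h3]
  rw [Finset.sum_comm]
  have h5 : ∀ j' : Fin (k + 1), (∑ j : Fin (k + 1), if j < j' then 9 else 0) = 9 * j'.1 := by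
    intro j'
    rw [← Finset.sum_filter, Finset.sum_const]
    have : (univ.filter (fun j : Fin (k + 1) => j < j')) = Finset.Iio j' := by
      ext; simp
    rw [this, Fin.card_Iio, smul_eq_mul, mul_comm]
  rw [Finset.sum_congr rfl (fun j' _ => h5 j'), ← Finset.mul_sum, Fin.sum_univ_eq_sum_range
    (fun i => i), Finset.sum_range_id, Nat.choose_two_right]

/-! ### The transfer recursion -/

/-- The weighted number of good words of length `k` after the letter `a`. -/
noncomputable def H {K : Type*} [Field K] (x : K) (k : ℕ) (a : Fin 5) : K :=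
  ∑ w : Fin k → Fin 5, if Gd a w then x ^ (∑ j, wt (w j)) else 0

lemma ext_cons_zero {k : ℕ} (c : Fin 5) (w : Fin k → Fin 5) :
    ext (Fin.cons c w : Fin (k + 1) → Fin 5) 0 = c := by
  simp [ext]

lemma ext_cons_succ {k : ℕ} (c : Fin 5) (w : Fin k → Fin 5) (j : ℕ) :
    ext (Fin.cons c w : Fin (k + 1) → Fin 5) (j + 1) = ext w j := by
  unfold ext
  by_cases h : j < k
  · rw [dif_pos h, dif_pos (by omega)]
    have : (⟨j + 1, by omega⟩ : Fin (k + 1)) = Fin.succ ⟨j, h⟩ := rfl
    rw [this, Fin.cons_succ]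
  · rw [dif_neg h, dif_neg (by omega)]

lemma gd_cons {k : ℕ} (a c : Fin 5) (w : Fin k → Fin 5) :
    Gd a (Fin.cons c w : Fin (k + 1) → Fin 5) ↔ ok a c = true ∧ Gd c w := by
  constructor
  · intro h
    refine ⟨?_, ?_⟩
    · have := h 0 (by omega)
      rwa [ext_cons_zero] at this
    · intro j hj
      have := h (j + 1) (by omega)
      rw [ext_cons_succ] at this
      cases j with
      | zero =>
        have h1 : prv a (Fin.cons c w : Fin (k + 1) → Fin 5) (0 + 1) = c := ext_cons_zero c w
        rw [h1] at this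
        exact this
      | succ j =>
        have h1 : prv a (Fin.cons c w : Fin (k + 1) → Fin 5) (j + 1 + 1) = ext w j :=
          ext_cons_succ c w j
        rw [h1] at this
        exact this
  · rintro ⟨h1, h2⟩ j hj
    cases j with
    | zero =>
      rw [ext_cons_zero]
      exact h1
    | succ j =>
      rw [ext_cons_succ]
      have h3 := h2 j (by omega)
      cases j with
      | zero =>
        have h4 : prv a (Fin.cons c w : Fin (k + 1) → Fin 5) (0 + 1) = c := ext_cons_zero c w
        rw [h4]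
        exact h3
      | succ j =>
        have h4 : prv a (Fin.cons c w : Fin (k + 1) → Fin 5) (j + 1 + 1) = ext w j :=
          ext_cons_succ c w j
        rw [h4]
        exact h3

lemma H_succ {K : Type*} [Field K] (x : K) (k : ℕ) (a : Fin 5) :
    H x (k + 1) a = ∑ c : Fin 5, if ok a c then x ^ wt c * H x k c else 0 := by
  unfold H
  rw [← (Fin.consEquiv (fun _ : Fin (k + 1) => Fin 5)).sum_comp, Fintype.sum_prod_type]
  refine Finset.sum_congr rfl (fun c _ => ?_)
  have hc : ∀ w : Fin k → Fin 5, (Fin.consEquiv (fun _ : Fin (k + 1) => Fin 5)) (c, w) =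
    (Fin.cons c w : Fin (k + 1) → Fin 5) := fun w => rfl
  simp only [hc, gd_cons, Fin.sum_univ_succ, Fin.cons_zero, Fin.cons_succ]
  by_cases h : ok a c = true
  · simp only [h, true_and, if_true, Finset.mul_sum, mul_ite, mul_zero, pow_add]
  · simp [h]

lemma H_zero {K : Type*} [Field K] (x : K) (a : Fin 5) : H x 0 a = 1 := by
  unfold H
  rw [Fintype.sum_eq_single (fun j : Fin 0 => (0 : Fin 5))]
  · rw [if_pos]
    · simp
    · intro j hj
      omega
  · intro w hw
    exact absurd (Subsingleton.elim _ _) hw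

lemma H_cases {K : Type*} [Field K] (x : K) (k : ℕ) :
    H x k 1 = H x k 0 ∧ H x k 3 = H x k 0 ∧ H x k 4 = H x k 2 := by
  cases k with
  | zero => simp [H_zero]
  | succ k =>
    simp only [H_succ]
    refine ⟨?_, ?_, ?_⟩ <;>
    · refine Finset.sum_congr rfl (fun c _ => ?_)
      have h1 : ok 1 c = ok 0 c := by revert c; decide
      have h3 : ok 3 c = ok 0 c := by revert c; decide
      have h4 : ok 4 c = ok 2 c := by revert c; decide
      simp only [h1, h3, h4]

lemma H_rec_zero {K : Type*} [Field K] (x : K) (k : ℕ) :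
    H x (k + 1) 0 = (1 + x + x ^ 2) * H x k 0 + (x ^ 2 + x ^ 3) * H x k 2 := by
  obtain ⟨h1, h3, h4⟩ := H_cases x k
  rw [H_succ]
  simp only [Fin.sum_univ_five]
  have o0 : ok 0 0 = true := by decide
  have o1 : ok 0 1 = true := by decide
  have o2 : ok 0 2 = true := by decide
  have o3 : ok 0 3 = true := by decide
  have o4 : ok 0 4 = true := by decide
  have w0 : wt 0 = 0 := by decide
  have w1 : wt 1 = 1 := by decide
  have w2 : wt 2 = 2 := by decide
  have w3 : wt 3 = 2 := by decide
  have w4 : wt 4 = 3 := by decide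
  simp only [o0, o1, o2, o3, o4, w0, w1, w2, w3, w4, h1, h3, h4, if_true]
  ring

lemma H_rec_two {K : Type*} [Field K] (x : K) (k : ℕ) :
    H x (k + 1) 2 = (1 + x) * H x k 0 + x ^ 2 * H x k 2 := by
  obtain ⟨h1, h3, h4⟩ := H_cases x k
  rw [H_succ]
  simp only [Fin.sum_univ_five]
  have o0 : ok 2 0 = true := by decide
  have o1 : ok 2 1 = true := by decide
  have o2 : ok 2 2 = true := by decide
  have o3 : ok 2 3 = false := by decide
  have o4 : ok 2 4 = false := by decide
  have w0 : wt 0 = 0 := by decide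
  have w1 : wt 1 = 1 := by decide
  have w2 : wt 2 = 2 := by decide
  simp only [o0, o1, o2, o3, o4, w0, w1, w2, h1, if_true, Bool.false_eq_true, if_false]
  ring

lemma H_eq_F {K : Type*} [Field K] (x : K) (k : ℕ) :
    H x k 0 = Polynomial.aeval x (F (k + 1)) ∧
      H x (k + 1) 0 = Polynomial.aeval x (F (k + 2)) := by
  have hh2 : (Polynomial.aeval x) (2 : Polynomial ℤ) = 2 := map_ofNat _ 2
  induction k with
  | zero =>
    constructor
    · rw [H_zero]
      simp [F]
    · rw [H_rec_zero, H_zero, H_zero]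
      simp [F, hh2]
      ring
  | succ k ih =>
    refine ⟨ih.2, ?_⟩
    have h1 : H x (k + 1 + 1) 0 = (1 + x + 2 * x ^ 2) * H x (k + 1) 0 + x ^ 3 * H x k 0 := by
      have h2 := H_rec_zero x (k + 1)
      have h3 := H_rec_zero x k
      have h4 := H_rec_two x k
      rw [h2, h4]
      linear_combination (-x ^ 2) * h3
    rw [h1, ih.1, ih.2]
    have : F (k + 1 + 2) = (1 + Polynomial.X + 2 * Polynomial.X ^ 2) * F (k + 2) +
      Polynomial.X ^ 3 * F (k + 1) := rfl
    rw [this]
    simp [hh2]

/-! ### The main theorem -/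

/-- For every `s ≥ 1` and every `q ≠ 0` in a field, the inversion generating function of the
`2143`-avoiding linear extensions of `EN_{s,3}` at `q` is `q ^ (9 C(s, 2)) F_s(1/q)`. -/
theorem main {K : Type*} [Field K] (q : K) (hq : q ≠ 0) (s : ℕ) (hs : 1 ≤ s) :
    ∑ π ∈ EN s 3, q ^ inv π = q ^ (9 * s.choose 2) * Polynomial.aeval q⁻¹ (F s) := by
  obtain ⟨k, rfl⟩ : ∃ k, s = k + 1 := ⟨s - 1, by omega⟩
  rw [← (H_eq_F q⁻¹ k).1]
  unfold H
  rw [← Finset.sum_filter, Finset.mul_sum]
  refine Finset.sum_bij' (fun π _ => word π)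
    (fun w hw => perm w (by simpa using hw)) ?_ ?_ ?_ ?_ ?_
  · intro π hπ
    rw [mem_EN] at hπ
    simpa using gd_word π hπ
  · intro w hw
    rw [mem_EN]
    exact good_of_R w _ (pos_perm_lt w _)
  · intro π hπ
    rw [mem_EN] at hπ
    apply perm_ext
    intro x y
    rw [pos_perm_lt, R_word π hπ]
  · intro w hw
    exact word_perm w _
  · intro π hπ
    rw [mem_EN] at hπ
    have h := inv_eq π hπ
    rw [← h, pow_add, mul_assoc, inv_pow, mul_inv_cancel₀ (pow_ne_zero _ hq), mul_one]

/-- **MP_071fcf, Q1.** The identity `EN_{s,3}(2143)(q) = q ^ (9 C(s, 2)) F_s(1/q)` holds for every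
`s ≥ 1`, at every nonzero element `q` of every field (so it holds as an identity of Laurent
polynomials). -/
theorem result (s : ℕ) (hs : 1 ≤ s) (K : Type*) [Field K] (q : K) (hq : q ≠ 0) :
    ∑ π ∈ EN s 3, q ^ inv π = q ^ (9 * s.choose 2) * Polynomial.aeval q⁻¹ (F s) :=
  main q hq s hs

end Pool.Agent.Results.MP_071fcf_co.ThreeColumns
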